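import Pool.Agent.Helper41.Cluster4.Goals

/-! Packet I (MP_c45da2_co): near points, third points, transport of the fixed planes. -/

set_option autoImplicit false

namespace Pool.Agent.Helper90.Cl

open Module Pool.Agent.Helper65.Delone Pool.Agent.Helper41.Cluster4
open scoped RealInnerProductSpace

variable {E : Type*} [NormedAddCommGroup E] [InnerProductSpace ℝ E] [FiniteDimensional ℝ E]

theorem fix_orth (A : E ≃ₗᵢ[ℝ] E) (v w : E) (h : A w = w) : ⟪w, A v - v⟫ = 0 := by
  rw [inner_sub_right]
  have h1 : ⟪w, A v⟫ = ⟪A w, A v⟫ := by rw [h]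
  rw [h1, A.inner_map_map, sub_self]

theorem transp4 : Transp4 E := by
  intro X L W Q hF x hx x' hx' B hB z hz hzx
  have hW := hF.W_pos
  have huL : ‖z - x‖ ≤ L := by linarith
  have hz' : x' + B (z - x) ∈ X := by
    refine (hB (z - x) huL).1 ?_
    rw [add_sub_cancel]
    exact hz
  refine ⟨hz', ?_⟩
  obtain ⟨a, b, ha, hb, hna, hnb, hspan⟩ := hF.gens z hz
  have key : ∀ c : E, z + c ∈ X → ‖c‖ ≤ 2 / 15 * W → B c ∈ Q (x' + B (z - x)) := by
    intro c hc hcn
    have h1 : ‖(z - x) + c‖ ≤ L := by
      have := norm_add_le (z - x) c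
      linarith
    have h2 : x + ((z - x) + c) ∈ X := by
      have : x + ((z - x) + c) = z + c := by abel
      rw [this]
      exact hc
    have h3 := (hB ((z - x) + c) h1).1 h2
    have h5 : x' + B ((z - x) + c) - (x' + B (z - x)) = B c := by
      rw [map_add]
      abel
    have h4 := hF.near (x' + B (z - x)) hz' (x' + B ((z - x) + c)) h3 (by
      rw [h5, B.norm_map]
      linarith)
    rwa [h5] at h4
  have hle : (Q z).map (B.toLinearEquiv : E →ₗ[ℝ] E) ≤ Q (x' + B (z - x)) := by
    rw [← hspan, Submodule.map_span, Submodule.span_le]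
    rintro _ ⟨c, hc, rfl⟩
    rcases hc with hc | hc
    · rw [hc]
      exact key a ha hna
    · rw [Set.mem_singleton_iff.1 hc]
      exact key b hb hnb
  have heq : (Q z).map (B.toLinearEquiv : E →ₗ[ℝ] E) = Q (x' + B (z - x)) := by
    refine Submodule.eq_of_le_of_finrank_eq hle ?_
    rw [LinearEquiv.finrank_map_eq, hF.Q_rank z hz, hF.Q_rank _ hz']
  intro v
  rw [← heq, Submodule.mem_map]
  constructor
  · intro hv
    exact ⟨v, hv, rfl⟩
  · rintro ⟨w, hw, hwv⟩
    have : w = v := B.injective hwv
    rw [← this]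
    exact hw

theorem stepI4 (hs : SmallFacts E) : StepI4 E := by
  intro hdim X L W Q hF x hx z hz hzL hzW hzQ
  have hW := hF.W_pos
  obtain ⟨A, hA⟩ := hF.S_ne x hx
  have hfix := hF.S_fix x hx A hA
  obtain ⟨hAiso, hA1, hAs⟩ := hA
  set u := z - x with hu
  have hAu : A u ≠ u := fun h1 => hzQ ((hfix u).1 h1)
  have hind := (hs A hAs).1 u hAu
  have hxu : x + u ∈ X := by
    rw [hu, add_sub_cancel]
    exact hz
  have e1 : x + A u ∈ X := (hAiso u hzL).1 hxu
  have e2 : x + A.symm u ∈ X := by
    refine (hAiso (A.symm u) ?_).2 ?_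
    · rw [LinearIsometryEquiv.norm_map]
      exact hzL
    · rw [LinearIsometryEquiv.apply_symm_apply]
      exact hxu
  have n1 : ‖A u - u‖ ≤ 2 / 15 * ‖u‖ := hAs u
  have n2 : ‖A.symm u - u‖ ≤ 2 / 15 * ‖u‖ := by
    have := hAs (A.symm u)
    rw [LinearIsometryEquiv.apply_symm_apply, LinearIsometryEquiv.norm_map, norm_sub_rev] at this
    exact this
  have near' : ∀ t : E, x + t ∈ X → ‖t - u‖ < W → t - u ∈ Q z := by
    intro t ht htn
    have h1 : x + t - z = t - u := by rw [hu]; abel
    have := hF.near z hz (x + t) ht (by rw [h1]; exact htn)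
    rwa [h1] at this
  have m1 : A u - u ∈ Q z := near' _ e1 (by linarith)
  have m2 : A.symm u - u ∈ Q z := near' _ e2 (by linarith)
  have hspan : Submodule.span ℝ {A u - u, A.symm u - u} = Q z := by
    refine Submodule.eq_of_le_of_finrank_eq ?_ ?_
    · rw [Submodule.span_le]
      rintro c (hc | hc)
      · rw [hc]
        exact m1
      · rw [Set.mem_singleton_iff.1 hc]
        exact m2
    · rw [hF.Q_rank z hz]
      have := finrank_span_eq_card hind
      rw [Matrix.range_cons, Matrix.range_cons, Matrix.range_empty, Set.union_empty,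
        Set.singleton_union] at this
      rw [this]
      rfl
  refine Submodule.eq_of_le_of_finrank_eq ?_ ?_
  · rw [← hspan, Submodule.span_le]
    rintro c (hc | hc)
    · rw [hc]
      refine (Submodule.mem_orthogonal _ _).2 fun f hf => ?_
      exact fix_orth A u f ((hfix f).2 hf)
    · rw [Set.mem_singleton_iff.1 hc]
      refine (Submodule.mem_orthogonal _ _).2 fun f hf => ?_
      refine fix_orth A.symm u f ?_
      rw [LinearIsometryEquiv.symm_apply_eq]
      exact ((hfix f).2 hf).symm
  · have h1 := Submodule.finrank_add_finrank_orthogonal (Q x)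
    rw [hdim, hF.Q_rank x hx] at h1
    rw [hF.Q_rank z hz]
    omega

theorem inf_orth {P : Submodule ℝ E} {v : E} (h1 : v ∈ P) (h2 : v ∈ Pᗮ) : v = 0 :=
  inner_self_eq_zero.1 ((Submodule.mem_orthogonal P v).1 h2 v h1)

theorem lemC4 (hI : StepI4 E) : LemC4 E := by
  intro hdim X L W Q hF x hx y hy z hz c hxy hcx hcy hzc hzx hzx' hzy hzy'
  have hyx : (Q y)ᗮ = Q x := by rw [hxy, Submodule.orthogonal_orthogonal]
  by_cases h1 : z - x ∈ Q x
  · left
    have h2 : z - c ∈ Q x := by
      have h3 : z - c = (z - x) - (c - x) := by abel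
      rw [h3]
      exact Submodule.sub_mem _ h1 hcx
    refine ⟨h2, ?_⟩
    have h4 : z - y ∉ Q y := by
      intro h5
      have h6 : z - c ∈ Q y := by
        have h7 : z - c = (z - y) - (c - y) := by abel
        rw [h7]
        exact Submodule.sub_mem _ h5 hcy
      rw [hxy] at h6
      exact hzc (sub_eq_zero.1 (inf_orth h2 h6))
    rw [hI hdim X L W Q hF y hy z hz hzy hzy' h4, hyx]
  · have h2 := hI hdim X L W Q hF x hx z hz hzx hzx' h1
    by_cases h3 : z - y ∈ Q y
    · right
      refine ⟨?_, by rw [h2, hxy]⟩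
      have h7 : z - c = (z - y) - (c - y) := by abel
      rw [h7]
      exact Submodule.sub_mem _ h3 hcy
    · exfalso
      have h4 := hI hdim X L W Q hF y hy z hz hzy hzy' h3
      rw [h2, hyx] at h4
      have h5 : Q x = ⊥ := by
        rw [Submodule.eq_bot_iff]
        intro v hv
        exact inf_orth hv (by rw [h4]; exact hv)
      have h6 := hF.Q_rank x hx
      rw [h5, finrank_bot] at h6
      omega

end Pool.Agent.Helper90.Cl
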